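import Mathlib

/-!
# Isolation number of Cartesian products (helper file for MP_e0e9b7_co)

An analogue, for the isolation number, of the Aharoni–Szabó theorem on Vizing's conjecture.
For a set `M` of edges of `G` let `ι_G(M)` be the least size of a set `A` of vertices of `G` such
that every edge of `M` has an end in `N[A]`; thus `ι_G(E(G)) = ι(G)`.

* If `M` is an induced matching of `G`, then `ι(G □ H) ≥ ι_G(M) γ(H)` for every graph `H`.
* If `M` is a matching of `G`, then `2 ι(G □ H) ≥ ι_G(M) γ(H)` for every graph `H`.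
* If `G` is strongly chordal (has a strong elimination ordering), in particular if `G` is a
  forest, then `ι(G □ H) ≥ ι(G) γ(H) ≥ ι(G) ι(H)` for every graph `H`: Q1 holds for such `G`.
-/

set_option autoImplicit false

namespace Pool.Agent.J4H91.Iso

open Finset Classical

/-- `x` lies in the closed neighbourhood of `v`. -/
def InN {V : Type*} (G : SimpleGraph V) (x v : V) : Prop := x = v ∨ G.Adj x v

/-- `A` is an isolating set of `G`: no edge has both endpoints outside `N[A]`. -/
def IsIsolating {V : Type*} (G : SimpleGraph V) (A : Finset V) : Prop :=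
  ∀ u v, G.Adj u v → (∃ a ∈ A, InN G a u) ∨ (∃ a ∈ A, InN G a v)

/-- `A` is a dominating set of `G`: `N[A] = V(G)`. -/
def IsDominating {V : Type*} (G : SimpleGraph V) (A : Finset V) : Prop :=
  ∀ v, ∃ a ∈ A, InN G a v

/-- the isolation number `ι(G)` -/
noncomputable def isoNum {V : Type*} (G : SimpleGraph V) : ℕ :=
  sInf {n : ℕ | ∃ A : Finset V, IsIsolating G A ∧ A.card = n}

/-- the domination number `γ(G)` -/
noncomputable def domNum {V : Type*} (G : SimpleGraph V) : ℕ :=
  sInf {n : ℕ | ∃ A : Finset V, IsDominating G A ∧ A.card = n}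

/-- `A` hits the edge `e`: some end of `e` lies in `N[A]`. -/
def Hits {V : Type*} (G : SimpleGraph V) (A : Finset V) (e : Sym2 V) : Prop :=
  ∃ u ∈ e, ∃ a ∈ A, InN G a u

/-- `ι_G(M)`: the least size of a set of vertices of `G` hitting every edge of `M`. -/
noncomputable def hitNum {V : Type*} (G : SimpleGraph V) (M : Set (Sym2 V)) : ℕ :=
  sInf {n : ℕ | ∃ A : Finset V, (∀ e ∈ M, Hits G A e) ∧ A.card = n}

/-- `M` is a matching of `G`: a set of pairwise disjoint edges of `G`. -/
def IsMatch {V : Type*} (G : SimpleGraph V) (M : Set (Sym2 V)) : Prop :=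
  M ⊆ G.edgeSet ∧ ∀ e ∈ M, ∀ f ∈ M, e ≠ f → ∀ u ∈ e, u ∉ f

/-- `M` is an induced matching of `G`: a set of edges of `G` such that no end of one of them
equals, or is adjacent to, an end of another one. -/
def IsInducedMatch {V : Type*} (G : SimpleGraph V) (M : Set (Sym2 V)) : Prop :=
  M ⊆ G.edgeSet ∧ ∀ e ∈ M, ∀ f ∈ M, e ≠ f → ∀ u ∈ e, ∀ v ∈ f, ¬ InN G u v

/-- `ρ` is a strong elimination ordering of `G` (Farber): if `i` comes before `j` and `k` before
`l`, and `k, l ∈ N[i]`, `k ∈ N[j]`, then `l ∈ N[j]`. -/
def IsStrongElimination {V : Type*} (G : SimpleGraph V) (ρ : V → ℕ) : Prop :=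
  Function.Injective ρ ∧
    ∀ i j k l : V, ρ i < ρ j → ρ k < ρ l → InN G k i → InN G l i → InN G k j → InN G l j

/-- `G` is strongly chordal: it has a strong elimination ordering. -/
def IsStronglyChordal {V : Type*} (G : SimpleGraph V) : Prop :=
  ∃ ρ : V → ℕ, IsStrongElimination G ρ

section basic

variable {V : Type*} {G : SimpleGraph V}

lemma InN.symm {x v : V} (h : InN G x v) : InN G v x := by
  rcases h with h | h
  · exact Or.inl h.symm
  · exact Or.inr h.symm

lemma InN.refl (v : V) : InN G v v := Or.inl rfl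

lemma isoNum_le {A : Finset V} (h : IsIsolating G A) : isoNum G ≤ A.card :=
  Nat.sInf_le ⟨A, h, rfl⟩

lemma domNum_le {A : Finset V} (h : IsDominating G A) : domNum G ≤ A.card :=
  Nat.sInf_le ⟨A, h, rfl⟩

lemma hitNum_le {A : Finset V} {M : Set (Sym2 V)} (h : ∀ e ∈ M, Hits G A e) :
    hitNum G M ≤ A.card :=
  Nat.sInf_le ⟨A, h, rfl⟩

lemma exists_iso [Fintype V] (G : SimpleGraph V) :
    ∃ A : Finset V, IsIsolating G A ∧ A.card = isoNum G := by
  have : (Finset.univ : Finset V).card ∈ {n : ℕ | ∃ A : Finset V, IsIsolating G A ∧ A.card = n} :=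
    ⟨Finset.univ, fun u v _ => Or.inl ⟨u, Finset.mem_univ _, Or.inl rfl⟩, rfl⟩
  exact Nat.sInf_mem ⟨_, this⟩

lemma exists_dom [Fintype V] (G : SimpleGraph V) :
    ∃ A : Finset V, IsDominating G A ∧ A.card = domNum G := by
  have : (Finset.univ : Finset V).card ∈ {n : ℕ | ∃ A : Finset V, IsDominating G A ∧ A.card = n} :=
    ⟨Finset.univ, fun u => ⟨u, Finset.mem_univ _, Or.inl rfl⟩, rfl⟩
  exact Nat.sInf_mem ⟨_, this⟩

lemma exists_hit [Fintype V] (G : SimpleGraph V) (M : Set (Sym2 V)) :
    ∃ A : Finset V, (∀ e ∈ M, Hits G A e) ∧ A.card = hitNum G M := by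
  have : (Finset.univ : Finset V).card ∈
      {n : ℕ | ∃ A : Finset V, (∀ e ∈ M, Hits G A e) ∧ A.card = n} := by
    refine ⟨Finset.univ, fun e _ => ?_, rfl⟩
    induction e with
    | _ x y => exact ⟨x, by simp, x, Finset.mem_univ _, Or.inl rfl⟩
  exact Nat.sInf_mem ⟨_, this⟩

lemma iso_le_dom [Fintype V] (G : SimpleGraph V) : isoNum G ≤ domNum G := by
  obtain ⟨A, hA, hc⟩ := exists_dom G
  have h1 : IsIsolating G A := fun u v _ => Or.inl (hA u)
  rw [← hc]
  exact isoNum_le h1

/-- hitting all edges is the same as isolating -/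
lemma isIsolating_iff {A : Finset V} : IsIsolating G A ↔ ∀ e ∈ G.edgeSet, Hits G A e := by
  constructor
  · intro h e he
    induction e with
    | _ x y =>
      rcases h x y he with ⟨a, ha, h1⟩ | ⟨a, ha, h1⟩
      · exact ⟨x, by simp, a, ha, h1⟩
      · exact ⟨y, by simp, a, ha, h1⟩
  · intro h u v huv
    obtain ⟨w, hw, a, ha, h1⟩ := h s(u, v) huv
    rcases Sym2.mem_iff.mp hw with rfl | rfl
    · exact Or.inl ⟨a, ha, h1⟩
    · exact Or.inr ⟨a, ha, h1⟩

end basic

section main

variable {V W : Type*} [Fintype V] [Fintype W]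

lemma core (G : SimpleGraph V) (H : SimpleGraph W) (A : Finset (V × W))
    (hA : IsIsolating (G.boxProd H) A) (M : Set (Sym2 V)) (hM : IsMatch G M)
    (B : Finset (V × W))
    (hB : ∀ p ∈ A, p ∈ B ∨ ∃ e ∈ M, p.1 ∈ e ∧ ∀ f ∈ M, ∀ u ∈ f, G.Adj p.1 u → f = e) :
    hitNum G M * domNum H ≤ (A.filter (fun p => ∃ e ∈ M, p.1 ∈ e)).card + B.card := by
  obtain ⟨X, hX, hXc⟩ := exists_hit G M
  -- the block of an edge of `M`
  have hb : ∀ e : Sym2 V, ∃ x : V, e ∈ M → x ∈ X ∧ ∃ u ∈ e, InN G x u := by
    intro e
    by_cases he : e ∈ M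
    · obtain ⟨u, hu, a, ha, h1⟩ := hX e he
      exact ⟨a, fun _ => ⟨ha, u, hu, h1⟩⟩
    · induction e with
      | _ x y => exact ⟨x, fun h => absurd h he⟩
  choose b hb using hb
  -- the cell of a block
  let P : V → Finset W := fun x =>
    (A.filter (fun p => ∃ e ∈ M, p.1 ∈ e ∧ b e = x)).image Prod.snd
  let Q : V → Finset W := fun x => Finset.univ.filter (fun h => ∀ p ∈ P x, ¬ InN H p h)
  have h1 : ∀ x, domNum H ≤
      (A.filter (fun p => ∃ e ∈ M, p.1 ∈ e ∧ b e = x)).card + (Q x).card := by
    intro x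
    have hdom : IsDominating H (P x ∪ Q x) := by
      intro h
      by_cases hh : ∀ p ∈ P x, ¬ InN H p h
      · exact ⟨h, Finset.mem_union_right _ (Finset.mem_filter.mpr ⟨Finset.mem_univ _, hh⟩),
          Or.inl rfl⟩
      · push Not at hh
        obtain ⟨p, hp, hp'⟩ := hh
        exact ⟨p, Finset.mem_union_left _ hp, hp'⟩
    calc domNum H ≤ (P x ∪ Q x).card := domNum_le hdom
      _ ≤ (P x).card + (Q x).card := Finset.card_union_le _ _
      _ ≤ _ := Nat.add_le_add_right Finset.card_image_le _
  have h2 : ∀ h : W, (X.filter (fun x => h ∈ Q x)).card ≤ (B.filter (fun p => p.2 = h)).card := by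
    intro h
    let Y : Finset V := (B.filter (fun p => p.2 = h)).image Prod.fst ∪ X.filter (fun x => h ∉ Q x)
    have hY : ∀ e ∈ M, Hits G Y e := by
      intro e he
      by_cases hx : h ∈ Q (b e)
      · -- the cell is missing
        have hQ : ∀ p ∈ P (b e), ¬ InN H p h := (Finset.mem_filter.mp hx).2
        have aux : ∀ u ∈ e, (∃ a ∈ A, InN (G.boxProd H) a (u, h)) → Hits G Y e := by
          rintro u hu ⟨⟨a, c⟩, ha, hab⟩
          rcases hab with h3 | h3
          · exfalso
            have ha1 : a = u := congrArg Prod.fst h3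
            have hc1 : c = h := congrArg Prod.snd h3
            subst ha1; subst hc1
            refine hQ c ?_ (Or.inl rfl)
            exact Finset.mem_image.mpr ⟨(a, c), Finset.mem_filter.mpr ⟨ha, e, he, hu, rfl⟩, rfl⟩
          · rw [SimpleGraph.boxProd_adj] at h3
            rcases h3 with ⟨h4, h5⟩ | ⟨h4, h5⟩
            · have hc1 : c = h := h5
              subst hc1
              rcases hB (a, c) ha with h6 | ⟨f, hf, haf, hf2⟩
              · refine ⟨u, hu, a, Finset.mem_union_left _ ?_, Or.inr h4⟩
                exact Finset.mem_image.mpr ⟨(a, c), Finset.mem_filter.mpr ⟨h6, rfl⟩, rfl⟩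
              · exfalso
                have hef : e = f := hf2 e he u hu h4
                subst hef
                refine hQ c ?_ (Or.inl rfl)
                exact Finset.mem_image.mpr
                  ⟨(a, c), Finset.mem_filter.mpr ⟨ha, e, he, haf, rfl⟩, rfl⟩
            · exfalso
              have ha1 : a = u := h5
              subst ha1
              refine hQ c ?_ (Or.inr h4)
              exact Finset.mem_image.mpr ⟨(a, c), Finset.mem_filter.mpr ⟨ha, e, he, hu, rfl⟩, rfl⟩
        induction e with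
        | _ x y =>
          have hxy : G.Adj x y := hM.1 he
          rcases hA (x, h) (y, h) (SimpleGraph.boxProd_adj_left.mpr hxy) with h3 | h3
          · exact aux x (by simp) h3
          · exact aux y (by simp) h3
      · obtain ⟨hbX, u, hu, hbu⟩ := hb e he
        exact ⟨u, hu, b e, Finset.mem_union_right _ (Finset.mem_filter.mpr ⟨hbX, hx⟩), hbu⟩
    have hYc : Y.card ≤ (B.filter (fun p => p.2 = h)).card +
        (X.filter (fun x => h ∉ Q x)).card :=
      (Finset.card_union_le _ _).trans (Nat.add_le_add_right Finset.card_image_le _)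
    have hsplit : (X.filter (fun x => h ∈ Q x)).card + (X.filter (fun x => h ∉ Q x)).card
        = X.card := Finset.card_filter_add_card_filter_not _
    have := hitNum_le hY
    omega
  have h3 : ∑ x ∈ X, (Q x).card = ∑ h : W, (X.filter (fun x => h ∈ Q x)).card := by
    have e1 : ∀ x, (Q x).card = ∑ h : W, (if h ∈ Q x then 1 else 0) := by
      intro x; simp
    simp only [Finset.card_filter]
    rw [Finset.sum_congr rfl (fun x _ => e1 x), Finset.sum_comm]
  have h4 : ∑ x ∈ X, (A.filter (fun p => ∃ e ∈ M, p.1 ∈ e ∧ b e = x)).card ≤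
      (A.filter (fun p => ∃ e ∈ M, p.1 ∈ e)).card := by
    rw [← Finset.card_biUnion]
    · apply Finset.card_le_card
      intro p hp
      simp only [Finset.mem_biUnion, Finset.mem_filter] at hp ⊢
      obtain ⟨x, _, hpA, e, he, hpe, _⟩ := hp
      exact ⟨hpA, e, he, hpe⟩
    · intro x _ y _ hxy
      rw [Function.onFun, Finset.disjoint_left]
      intro p hp hp'
      obtain ⟨_, e, he, hpe, hbe⟩ := Finset.mem_filter.mp hp
      obtain ⟨_, f, hf, hpf, hbf⟩ := Finset.mem_filter.mp hp'
      have hef : e = f := by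
        by_contra hne
        exact hM.2 e he f hf hne p.1 hpe hpf
      exact hxy (by rw [← hbe, ← hbf, hef])
  have h5 : ∑ h : W, (B.filter (fun p => p.2 = h)).card = B.card :=
    (Finset.card_eq_sum_card_fiberwise (fun x _ => Finset.mem_coe.mpr (Finset.mem_univ x.2))).symm
  calc hitNum G M * domNum H = ∑ x ∈ X, domNum H := by rw [← hXc]; simp
    _ ≤ ∑ x ∈ X, ((A.filter (fun p => ∃ e ∈ M, p.1 ∈ e ∧ b e = x)).card + (Q x).card) :=
        Finset.sum_le_sum (fun x _ => h1 x)
    _ = ∑ x ∈ X, (A.filter (fun p => ∃ e ∈ M, p.1 ∈ e ∧ b e = x)).card +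
        ∑ h : W, (X.filter (fun x => h ∈ Q x)).card := by rw [Finset.sum_add_distrib, h3]
    _ ≤ (A.filter (fun p => ∃ e ∈ M, p.1 ∈ e)).card +
        ∑ h : W, (B.filter (fun p => p.2 = h)).card :=
        Nat.add_le_add h4 (Finset.sum_le_sum (fun h _ => h2 h))
    _ = _ := by rw [h5]

omit [Fintype V] in
lemma IsInducedMatch.isMatch {G : SimpleGraph V} {M : Set (Sym2 V)} (h : IsInducedMatch G M) :
    IsMatch G M :=
  ⟨h.1, fun e he f hf hne u hu huf => h.2 e he f hf hne u hu u huf (Or.inl rfl)⟩

theorem induced_bound (G : SimpleGraph V) (H : SimpleGraph W) (M : Set (Sym2 V))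
    (hM : IsInducedMatch G M) : hitNum G M * domNum H ≤ isoNum (G.boxProd H) := by
  obtain ⟨A, hA, hAc⟩ := exists_iso (G.boxProd H)
  have := core G H A hA M hM.isMatch (A.filter (fun p => ¬ ∃ e ∈ M, p.1 ∈ e)) (by
    intro p hp
    by_cases h : ∃ e ∈ M, p.1 ∈ e
    · right
      obtain ⟨e, he, hpe⟩ := h
      refine ⟨e, he, hpe, fun f hf u hu hadj => ?_⟩
      by_contra hne
      exact hM.2 e he f hf (Ne.symm hne) p.1 hpe u hu (Or.inr hadj)
    · exact Or.inl (Finset.mem_filter.mpr ⟨hp, h⟩))
  rw [Finset.card_filter_add_card_filter_not, hAc] at this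
  exact this

theorem matching_bound (G : SimpleGraph V) (H : SimpleGraph W) (M : Set (Sym2 V))
    (hM : IsMatch G M) : hitNum G M * domNum H ≤ 2 * isoNum (G.boxProd H) := by
  obtain ⟨A, hA, hAc⟩ := exists_iso (G.boxProd H)
  have := core G H A hA M hM A (fun p hp => Or.inl hp)
  have h2 : (A.filter (fun p => ∃ e ∈ M, p.1 ∈ e)).card ≤ A.card := Finset.card_filter_le _ _
  omega

end main

section chordal

variable {V : Type*} {G : SimpleGraph V} {ρ : V → ℕ}

/-- weak form of the defining property -/
lemma IsStrongElimination.weak (hρ : IsStrongElimination G ρ) {i j k l : V} (hij : ρ i ≤ ρ j)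
    (hkl : ρ k ≤ ρ l) (h1 : InN G k i) (h2 : InN G l i) (h3 : InN G k j) : InN G l j := by
  rcases hij.lt_or_eq with h | h
  · rcases hkl.lt_or_eq with h' | h'
    · exact hρ.2 i j k l h h' h1 h2 h3
    · rw [← hρ.1 h']; exact h3
  · rw [← hρ.1 h]; exact h2

/-- later neighbours of a vertex are pairwise adjacent (or equal) -/
lemma IsStrongElimination.clique (hρ : IsStrongElimination G ρ) {i j l : V} (hij : ρ i ≤ ρ j)
    (hil : ρ i ≤ ρ l) (h1 : InN G j i) (h2 : InN G l i) : InN G l j :=
  hρ.weak hij hil (InN.refl i) h2 h1.symm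

/-- The key fact: if `u v` and `u' v'` are edges with `u` before `v`, `u'` before `v'`, `v` not
after `v'`, whose closed neighbourhoods share a vertex, and `x` is the last vertex of `N[v]`,
then `x ∈ N[u'] ∪ N[v']`. -/
lemma IsStrongElimination.key (hρ : IsStrongElimination G ρ) {u v u' v' w x : V}
    (huv : G.Adj u v) (hu : ρ u < ρ v) (huv' : G.Adj u' v') (hu' : ρ u' < ρ v')
    (hvv : ρ v ≤ ρ v') (hx : InN G x v) (hxmax : ∀ y, InN G y v → ρ y ≤ ρ x)
    (hw : InN G w u ∨ InN G w v) (hw' : InN G w u' ∨ InN G w v') :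
    InN G x u' ∨ InN G x v' := by
  have hvx : ρ v ≤ ρ x := hxmax v (InN.refl v)
  -- it suffices that `v ∈ N[v']`
  have fin : InN G v v' → InN G x v' := fun h => hρ.weak hvv hvx (InN.refl v) hx h
  -- case `w ∈ N[v] ∩ N[v']`
  have cA1 : ∀ w, InN G w v → InN G w v' → InN G x v' := fun w h1 h2 =>
    hρ.weak hvv (hxmax w h1) h1 hx h2
  -- case `w ∈ N[v] ∩ N[u']`
  have cA2 : ∀ w, InN G w v → InN G w u' → InN G x u' ∨ InN G x v' := by
    intro w h1 h2
    rcases le_total (ρ v) (ρ u') with h | h
    · exact Or.inl (hρ.weak h (hxmax w h1) h1 hx h2)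
    · right
      rcases le_total (ρ u') (ρ w) with h3 | h3
      · exact cA1 w h1 (hρ.clique hu'.le h3 (Or.inr huv'.symm) h2)
      · -- `w` before `u'` before `v`
        have h4 : InN G v u' := hρ.clique h3 (h3.trans h) h2.symm h1.symm
        exact fin (hρ.clique hu'.le h (Or.inr huv'.symm) h4)
  have cA : ∀ w, InN G w v → (InN G w u' ∨ InN G w v') → InN G x u' ∨ InN G x v' := by
    intro w h1 h2
    rcases h2 with h2 | h2
    · exact cA2 w h1 h2
    · exact Or.inr (cA1 w h1 h2)
  rcases hw with hw | hw
  · rcases le_total (ρ u) (ρ w) with h | h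
    · exact cA w (hρ.clique hu.le h (Or.inr huv.symm) hw) hw'
    · -- `w` before `u`
      have cB1 : InN G w v' → InN G x u' ∨ InN G x v' := by
        intro h1
        -- `u, v' ∈ N[w]`, both later
        have h2 : InN G v' u := hρ.clique h ((h.trans hu.le).trans hvv) hw.symm h1.symm
        exact Or.inr (fin (hρ.clique (hu.le.trans hvv) hu.le h2 (Or.inr huv.symm)))
      rcases hw' with h1 | h1
      · rcases le_total (ρ u') (ρ w) with h3 | h3
        · exact cB1 (hρ.clique hu'.le h3 (Or.inr huv'.symm) h1)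
        · have h4 : InN G u u' := hρ.clique h3 h h1.symm hw.symm
          exact cA u (Or.inr huv) (Or.inl h4)
      · exact cB1 h1
  · exact cA w hw hw'

/-- Two edges share a vertex in their closed neighbourhoods. -/
def Meet (G : SimpleGraph V) (e f : Sym2 V) : Prop :=
  ∃ w, (∃ a ∈ e, InN G w a) ∧ (∃ b ∈ f, InN G w b)

/-- In a strongly chordal graph, hitting and packing coincide. -/
lemma greedy [Fintype V] (hρ : IsStrongElimination G ρ) (n : ℕ) :
    ∀ F : Finset (Sym2 V), F.card ≤ n → (∀ e ∈ F, e ∈ G.edgeSet) →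
      ∃ (M : Finset (Sym2 V)) (S : Finset V), M ⊆ F ∧ S.card ≤ M.card ∧
        (∀ e ∈ F, Hits G S e) ∧ (∀ e ∈ M, ∀ f ∈ M, e ≠ f → ¬ Meet G e f) := by
  induction n with
  | zero =>
    intro F hF _
    have : F = ∅ := Finset.card_eq_zero.mp (Nat.le_zero.mp hF)
    subst this
    exact ⟨∅, ∅, by simp, by simp, by simp, by simp⟩
  | succ n ih =>
    intro F hF hFE
    rcases F.eq_empty_or_nonempty with rfl | hne
    · exact ⟨∅, ∅, by simp, by simp, by simp, by simp⟩
    · -- larger end of each edge
      have hord : ∀ e : Sym2 V, e ∈ G.edgeSet → ∃ p : V × V, e = s(p.1, p.2) ∧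
          G.Adj p.1 p.2 ∧ ρ p.1 < ρ p.2 := by
        intro e he
        induction e with
        | _ x y =>
          have hxy : G.Adj x y := he
          rcases lt_trichotomy (ρ x) (ρ y) with h | h | h
          · exact ⟨(x, y), rfl, hxy, h⟩
          · exact absurd (hρ.1 h) hxy.ne
          · exact ⟨(y, x), Sym2.eq_swap, hxy.symm, h⟩
      let top : Sym2 V → ℕ := fun e => sSup {m | ∃ a ∈ e, m = ρ a}
      have htop : ∀ x y : V, ρ x < ρ y → top s(x, y) = ρ y := by
        intro x y hxy
        show sSup {m | ∃ a ∈ s(x, y), m = ρ a} = ρ y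
        have : {m | ∃ a ∈ s(x, y), m = ρ a} = {ρ x, ρ y} := by
          ext m
          simp
        rw [this, csSup_pair]
        exact max_eq_right hxy.le
      obtain ⟨e, he, hemin⟩ := F.exists_min_image top hne
      obtain ⟨⟨u, v⟩, hee, huv, hu⟩ := hord e (hFE e he)
      simp only at hee huv hu
      subst hee
      obtain ⟨x, hxN, hxmax⟩ := (Finset.univ.filter (fun y => InN G y v)).exists_max_image ρ
        ⟨v, by simp [InN.refl]⟩
      have hxN' : InN G x v := (Finset.mem_filter.mp hxN).2
      have hxmax' : ∀ y, InN G y v → ρ y ≤ ρ x := fun y hy =>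
        hxmax y (Finset.mem_filter.mpr ⟨Finset.mem_univ _, hy⟩)
      have hkey : ∀ f ∈ F, Meet G s(u, v) f → ∃ b ∈ f, InN G x b := by
        intro f hf hm
        obtain ⟨⟨u', v'⟩, hff, huv', hu'⟩ := hord f (hFE f hf)
        simp only at hff huv' hu'
        subst hff
        have hle : ρ v ≤ ρ v' := by
          have := hemin _ hf
          rw [htop u v hu, htop u' v' hu'] at this
          exact this
        obtain ⟨w, ⟨a, ha, hwa⟩, b, hb, hwb⟩ := hm
        have h1 : InN G w u ∨ InN G w v := by
          rcases Sym2.mem_iff.mp ha with rfl | rfl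
          · exact Or.inl hwa
          · exact Or.inr hwa
        have h2 : InN G w u' ∨ InN G w v' := by
          rcases Sym2.mem_iff.mp hb with rfl | rfl
          · exact Or.inl hwb
          · exact Or.inr hwb
        rcases hρ.key huv hu huv' hu' hle hxN' hxmax' h1 h2 with h | h
        · exact ⟨u', by simp, h⟩
        · exact ⟨v', by simp, h⟩
      let F' := F.filter (fun f => ¬ ∃ b ∈ f, InN G x b)
      have heF' : s(u, v) ∉ F' := by
        intro h
        exact (Finset.mem_filter.mp h).2 ⟨v, by simp, hxN'⟩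
      have hcard : F'.card ≤ n := by
        have hlt : F'.card < F.card :=
          Finset.card_lt_card ⟨Finset.filter_subset _ _, fun h => heF' (h he)⟩
        omega
      obtain ⟨M', S', hM', hS', hhit, hdis⟩ :=
        ih F' hcard (fun f hf => hFE f (Finset.mem_filter.mp hf).1)
      have heM' : s(u, v) ∉ M' := fun h => heF' (hM' h)
      have hnomeet : ∀ f ∈ M', ¬ Meet G s(u, v) f := by
        intro f hf hm
        have hfF' := hM' hf
        exact (Finset.mem_filter.mp hfF').2 (hkey f (Finset.mem_filter.mp hfF').1 hm)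
      refine ⟨insert s(u, v) M', insert x S', ?_, ?_, ?_, ?_⟩
      · intro f hf
        rcases Finset.mem_insert.mp hf with rfl | hf
        · exact he
        · exact (Finset.mem_filter.mp (hM' hf)).1
      · rw [Finset.card_insert_of_notMem heM']
        exact (Finset.card_insert_le _ _).trans (Nat.add_le_add_right hS' 1)
      · intro f hf
        by_cases hfx : ∃ b ∈ f, InN G x b
        · obtain ⟨b, hb, hxb⟩ := hfx
          exact ⟨b, hb, x, Finset.mem_insert_self _ _, hxb⟩
        · obtain ⟨b, hb, a, ha, h⟩ := hhit f (Finset.mem_filter.mpr ⟨hf, hfx⟩)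
          exact ⟨b, hb, a, Finset.mem_insert_of_mem ha, h⟩
      · intro f hf g hg hne'
        rcases Finset.mem_insert.mp hf with h1 | h1 <;>
          rcases Finset.mem_insert.mp hg with h2 | h2
        · exact absurd (h1.trans h2.symm) hne'
        · rw [h1]; exact hnomeet g h2
        · rw [h2]
          rintro ⟨w, h3, h4⟩
          exact hnomeet f h1 ⟨w, h4, h3⟩
        · exact hdis f h1 g h2 hne'

/-- In a strongly chordal graph some induced matching is as hard to hit as the whole edge set. -/
theorem stronglyChordal_induced [Fintype V] (h : IsStronglyChordal G) :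
    ∃ M : Set (Sym2 V), IsInducedMatch G M ∧ isoNum G ≤ hitNum G M := by
  obtain ⟨ρ, hρ⟩ := h
  have hfin : G.edgeSet.Finite := Set.toFinite _
  obtain ⟨M, S, hMF, hSM, hhit, hdis⟩ := greedy hρ hfin.toFinset.card hfin.toFinset le_rfl
    (fun e he => (Set.Finite.mem_toFinset hfin).mp he)
  refine ⟨(M : Set (Sym2 V)), ⟨?_, ?_⟩, ?_⟩
  · intro e he
    exact (Set.Finite.mem_toFinset hfin).mp (hMF he)
  · intro e he f hf hne u hu v hv huv
    exact hdis e he f hf hne ⟨u, ⟨u, hu, InN.refl u⟩, v, hv, huv⟩
  · have h1 : isoNum G ≤ S.card := isoNum_le (isIsolating_iff.mpr (fun e he =>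
      hhit e ((Set.Finite.mem_toFinset hfin).mpr he)))
    obtain ⟨A, hA, hAc⟩ := exists_hit G (M : Set (Sym2 V))
    have h2 : M.card ≤ A.card := by
      -- distinct edges of `M` are hit by distinct vertices
      have hc : ∀ e : Sym2 V, ∃ a : V, e ∈ M → a ∈ A ∧ ∃ u ∈ e, InN G a u := by
        intro e
        by_cases he : e ∈ M
        · obtain ⟨u, hu, a, ha, h1⟩ := hA e he
          exact ⟨a, fun _ => ⟨ha, u, hu, h1⟩⟩
        · induction e with
          | _ x y => exact ⟨x, fun h => absurd h he⟩
      choose c hc using hc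
      apply Finset.card_le_card_of_injOn c
      · intro e he
        exact (hc e he).1
      · intro e he f hf hcf
        by_contra hne
        obtain ⟨_, u, hu, hcu⟩ := hc e he
        obtain ⟨_, v, hv, hcv⟩ := hc f hf
        exact hdis e he f hf hne ⟨c e, ⟨u, hu, hcu⟩, v, hv, by rw [hcf]; exact hcv⟩
    rw [← hAc]
    exact h1.trans (hSM.trans h2)

end chordal

section forest

variable {V : Type*} [Fintype V] {G : SimpleGraph V}

omit [Fintype V] in
/-- In an acyclic graph a vertex has at most one neighbour closer to a given vertex `r`. -/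
lemma parent_unique (hG : G.IsAcyclic) {r v a b : V} (hr : G.Reachable v r) (ha : G.Adj v a)
    (hb : G.Adj v b) (hda : G.dist a r < G.dist v r) (hdb : G.dist b r < G.dist v r) : a = b := by
  obtain ⟨p, hp, hpl⟩ := hr.exists_path_of_dist
  have hmem : ∀ c, G.Adj v c → G.dist c r < G.dist v r → c ∈ p.support := by
    intro c hc hdc
    have hrc : G.Reachable c r := hc.symm.reachable.trans hr
    obtain ⟨q, hq, hql⟩ := hrc.exists_path_of_dist
    have hvq : v ∉ q.support := by
      intro hv
      have h1 : G.dist v r ≤ (q.dropUntil v hv).length := SimpleGraph.dist_le _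
      have h2 : (q.dropUntil v hv).length ≤ q.length := SimpleGraph.Walk.length_dropUntil_le_length _ _
      omega
    have hq' : (SimpleGraph.Walk.cons hc q).IsPath := hq.cons hvq
    have : p = SimpleGraph.Walk.cons hc q := by
      have := (hG.subsingleton_path v r).elim ⟨p, hp⟩ ⟨_, hq'⟩
      exact congrArg Subtype.val this
    rw [this]
    simp
  rw [hG.eq_snd_of_adj_start hp ha (hmem a ha hda), hG.eq_snd_of_adj_start hp hb (hmem b hb hdb)]

/-- Forests are strongly chordal. -/
theorem forest_stronglyChordal (hG : G.IsAcyclic) : IsStronglyChordal G := by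
  -- a root in every component
  let c : V → V := fun v => (G.connectedComponentMk v).out
  have hc : ∀ v, G.Reachable v (c v) := by
    intro v
    have : G.connectedComponentMk (c v) = G.connectedComponentMk v :=
      (G.connectedComponentMk v).out_eq
    exact (SimpleGraph.ConnectedComponent.exact this).symm
  have hcadj : ∀ v w, G.Adj v w → c v = c w := by
    intro v w h
    show (G.connectedComponentMk v).out = (G.connectedComponentMk w).out
    rw [SimpleGraph.ConnectedComponent.sound h.reachable]
  let d : V → ℕ := fun v => G.dist v (c v)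
  have hpar : ∀ v a b, G.Adj v a → G.Adj v b → d a < d v → d b < d v → a = b := by
    intro v a b ha hb hda hdb
    refine parent_unique hG (hc v) ha hb ?_ ?_
    · have : d a = G.dist a (c v) := by show G.dist a (c a) = _; rw [← hcadj v a ha]
      rw [← this]; exact hda
    · have : d b = G.dist b (c v) := by show G.dist b (c b) = _; rw [← hcadj v b hb]
      rw [← this]; exact hdb
  have hne : ∀ v w, G.Adj v w → d v ≠ d w := by
    intro v w h
    have h1 : d w = G.dist w (c v) := by show G.dist w (c w) = _; rw [← hcadj v w h]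
    rw [h1]
    show G.dist v (c v) ≠ _
    rw [SimpleGraph.dist_comm, SimpleGraph.dist_comm (u := w)]
    exact hG.dist_ne_of_adj h (hc v).symm
  let D : ℕ := ∑ v : V, d v
  have hD : ∀ v, d v ≤ D := fun v => Finset.single_le_sum (fun _ _ => Nat.zero_le _)
    (Finset.mem_univ v)
  obtain ⟨idx⟩ : Nonempty (V ≃ Fin (Fintype.card V)) := ⟨Fintype.equivFin V⟩
  let ρ : V → ℕ := fun v => (D - d v) * Fintype.card V + (idx v : ℕ)
  have hρd : ∀ v w, ρ v < ρ w → d w ≤ d v := by
    intro v w h
    by_contra hlt
    push Not at hlt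
    have h1 : D - d w + 1 ≤ D - d v := by have := hD w; omega
    have h2 : (D - d w + 1) * Fintype.card V ≤ (D - d v) * Fintype.card V :=
      Nat.mul_le_mul_right _ h1
    have h3 : (idx w : ℕ) < Fintype.card V := (idx w).2
    have h4 : (D - d v) * Fintype.card V + (idx v : ℕ) < (D - d w) * Fintype.card V + (idx w : ℕ) := h
    rw [Nat.add_mul, Nat.one_mul] at h2
    omega
  refine ⟨ρ, ?_, ?_⟩
  · intro v w h
    have hn : 0 < Fintype.card V := Fintype.card_pos_iff.mpr ⟨v⟩
    have h' : (D - d v) * Fintype.card V + (idx v : ℕ) = (D - d w) * Fintype.card V + (idx w : ℕ) := h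
    have h3 : ((D - d v) * Fintype.card V + (idx v : ℕ)) % Fintype.card V = (idx v : ℕ) := by
      rw [Nat.add_comm, Nat.add_mul_mod_self_right]; exact Nat.mod_eq_of_lt (idx v).2
    have h4 : ((D - d w) * Fintype.card V + (idx w : ℕ)) % Fintype.card V = (idx w : ℕ) := by
      rw [Nat.add_comm, Nat.add_mul_mod_self_right]; exact Nat.mod_eq_of_lt (idx w).2
    apply idx.injective
    apply Fin.ext
    rw [← h3, ← h4, h']
  · intro i j k l hij hkl hki hli hkj
    have hdji := hρd i j hij
    have hdlk := hρd k l hkl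
    have hij' : i ≠ j := fun h => by rw [h] at hij; exact lt_irrefl _ hij
    have hkl' : k ≠ l := fun h => by rw [h] at hkl; exact lt_irrefl _ hkl
    rcases hki with rfl | hki
    · -- `k = i`
      rcases hkj with h | hkj
      · exact absurd h hij'
      · rcases hli with h | hli
        · exact absurd h.symm hkl'
        · have h1 : d j < d k := lt_of_le_of_ne hdji (hne k j hkj).symm
          have h2 : d l < d k := lt_of_le_of_ne hdlk (hne l k hli)
          have : l = j := hpar k l j hli.symm hkj h2 h1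
          exact Or.inl this
    · exfalso
      rcases lt_or_gt_of_ne (hne k i hki) with h | h
      · -- `k` is the parent of `i`
        have hli' : G.Adj l i := by
          rcases hli with h5 | h5
          · rw [h5] at hdlk; omega
          · exact h5
        have h2 : d l < d i := lt_of_le_of_lt hdlk h
        exact hkl' (hpar i k l hki.symm hli'.symm h h2)
      · -- `i` is the parent of `k`
        rcases hkj with h5 | h5
        · rw [← h5] at hdji; omega
        · have h2 : d j < d k := lt_of_le_of_lt hdji h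
          exact hij' (hpar k i j hki h5 h h2)

end forest


end Pool.Agent.J4H91.Iso
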